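import Pool.Agent.K.MP_ea46f5_nt.C32
import Pool.Agent.P.MP_ea46f5_nt.Tq.A
import Pool.Agent.P.MP_ea46f5_nt.Tq.B

namespace Pool.Agent.Results.MP_ea46f5_nt.FourthMoment

open Pool.Agent.QM Pool.Agent.Q4

theorem result : ∀ a : ℕ, a ≤ 1 → ∃ r₀ : ℝ, 0 < r₀ ∧ ∀ r : ℝ, 0 < r → r ≤ r₀ →
    ∀ δ : ℝ, 0 < δ → ∃ C X₀ : ℝ, ∀ X : ℝ, X₀ ≤ X →
      ‖(∑ d ∈ Sd a X, Lhalf d ^ 4) / (3 * (X : ℂ) / (Real.pi : ℂ) ^ 2 * Qm 4 a r X) - 1‖ ≤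
        C * Real.log X ^ (δ - 10) := by
  intro a ha
  obtain ⟨r₀, h0, h⟩ := (Pool.Agent.Q4.main.2 : RATIO 0) a ha
  refine ⟨r₀, h0, fun r hr hle δ hδ => ?_⟩
  obtain ⟨C, X₀, h'⟩ := h r hr hle δ hδ
  refine ⟨C, X₀, fun X hX => ?_⟩
  have := h' X hX
  rwa [show (0 : ℝ) - 10 + δ = δ - 10 by ring] at this

/-- Q1 at `k = 4` as posed: the ratio of the two sides tends to `1`. -/
theorem q1_at_four : ∀ a : ℕ, a ≤ 1 → ∃ r₀ : ℝ, 0 < r₀ ∧ ∀ r : ℝ, 0 < r → r ≤ r₀ →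
    ∀ ε : ℝ, 0 < ε → ∃ X₀ : ℝ, ∀ X : ℝ, X₀ ≤ X →
      ‖(∑ d ∈ Sd a X, Lhalf d ^ 4) / (3 * (X : ℂ) / (Real.pi : ℂ) ^ 2 * Qm 4 a r X) - 1‖ ≤ ε := by
  intro a ha
  obtain ⟨r₀, h0, h⟩ := result a ha
  refine ⟨r₀, h0, fun r hr hle ε hε => ?_⟩
  obtain ⟨C, X₀, h1⟩ := h r hr hle 1 one_pos
  obtain ⟨X₁, h2⟩ := Tq.small_pow C hε
  exact ⟨max X₀ X₁, fun X hX => (h1 X ((le_max_left _ _).trans hX)).trans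
    (h2 X ((le_max_right _ _).trans hX))⟩

/-- Control (known): `Q_±(4, x)` is one polynomial of degree ten for all small radii, with the
leading coefficient of the problem file. -/
theorem degree_ten : ∀ a : ℕ, a ≤ 1 → ∃ r₀ : ℝ, 0 < r₀ ∧ ∃ c : Fin 11 → ℂ, c 10 ≠ 0 ∧
    c 10 = Aprod 4 0 * ∏ j : Fin 4, ((2 * (j : ℕ)).factorial : ℂ) / (2 * (4 + (j : ℕ)).factorial) ∧
    ∀ r : ℝ, 0 < r → r ≤ r₀ → ∀ x : ℝ, Qf 4 a r x = ∑ n, c n * (x : ℂ) ^ (n : ℕ) :=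
  fun _ ha => Tq.degree_ten ha

/-- Ten of the eleven terms: the average is a polynomial of degree ten in `log X` up to `c 0 / X`,
and the error term is `X log ^ δ X`. -/
theorem ten_terms : ∀ a : ℕ, a ≤ 1 → ∃ c : Fin 11 → ℂ, c 10 ≠ 0 ∧
    c 10 = Aprod 4 0 / (48 * 120 * 60 * 14) ∧
    (∃ r₀ : ℝ, 0 < r₀ ∧ ∀ r : ℝ, 0 < r → r ≤ r₀ → ∀ X : ℝ, 1 ≤ X →
      Qm 4 a r X = ∑ n, c n * (Real.log X : ℂ) ^ (n : ℕ) - c 0 / X) ∧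
    ∀ δ : ℝ, 0 < δ → ∃ C X₀ : ℝ, ∀ X : ℝ, X₀ ≤ X →
      ‖∑ d ∈ Sd a X, Lhalf d ^ 4 -
        3 * (X : ℂ) / (Real.pi : ℂ) ^ 2 * ∑ n, c n * (Real.log X : ℂ) ^ (n : ℕ)‖ ≤
          C * X * Real.log X ^ δ := by
  rw [show (48 * 120 * 60 * 14 : ℂ) = 4838400 by norm_num]
  exact fun _ ha => Tq.ten_terms ha

/-- The leading term alone. -/
theorem leading_term : ∀ a : ℕ, a ≤ 1 → ∀ ε : ℝ, 0 < ε → ∃ X₀ : ℝ, ∀ X : ℝ, X₀ ≤ X →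
    ‖(∑ d ∈ Sd a X, Lhalf d ^ 4) / (3 * (X : ℂ) / (Real.pi : ℂ) ^ 2 *
      (Aprod 4 0 / (48 * 120 * 60 * 14) * (Real.log X : ℂ) ^ 10)) - 1‖ ≤ ε := by
  rw [show (48 * 120 * 60 * 14 : ℂ) = 4838400 by norm_num]
  exact fun _ ha _ hε => Tq.leading_term ha hε

/-- Control (known): the central value is the sum of the Dirichlet series at `1 / 2`. -/
theorem series : ∀ d : ℤ, IsFund d → ∀ ε : ℝ, 0 < ε → ∃ N₀ : ℕ, ∀ N : ℕ, N₀ ≤ N →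
    ‖∑ n : Fin N, (kron d n : ℂ) * ((n : ℕ) : ℂ) ^ (-1 / 2 : ℂ) - Lhalf d‖ ≤ ε :=
  fun _ hd _ hε => Tq.series hd hε

/-- Control (known): the Euler product converges near `0`. -/
theorem euler_product : ∀ z : Fin 4 → ℂ, (∀ i, ‖z i‖ ≤ 1 / 16) → ∀ ε : ℝ, 0 < ε →
    ∃ S₀ : Finset Nat.Primes, ∀ S : Finset Nat.Primes, (∀ p ∈ S₀, p ∈ S) →
      ‖∏ p ∈ S, (∏ i, ∏ j ∈ Finset.Ici i, (1 - ((p : ℕ) : ℂ) ^ (-1 - z i - z j))) *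
        (1 / 2 * (∏ j, (1 - ((p : ℕ) : ℂ) ^ (-1 / 2 - z j))⁻¹ +
          ∏ j, (1 + ((p : ℕ) : ℂ) ^ (-1 / 2 - z j))⁻¹) + 1 / ((p : ℕ) : ℂ)) *
        (1 + 1 / ((p : ℕ) : ℂ))⁻¹ - Aprod 4 z‖ ≤ ε :=
  fun _ hz _ hε => Tq.euler hz hε

end Pool.Agent.Results.MP_ea46f5_nt.FourthMoment
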