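import Pool.Agent.K.MP_ea46f5_nt.C37

open Real Filter Pool.Agent.LRes

/-- Unconditional lower bound for high moments of the positive part of `L(1/2, χ_d)`, `d > 0`. -/
theorem Pool.Agent.Results.MP_ea46f5_nt.LargeMomentsPos.result (ε : ℝ) (hε : 0 < ε) :
    ∃ N₀ : ℝ, ∀ X N : ℝ, 1 ≤ X → N₀ ≤ N → N ≤ X ^ (1 / 4 - ε) → ∀ k : ℕ, 1 ≤ k →
      X / (N * log X ^ 3) * exp ((2 - ε) * k * √(log N * log (log (log N)) / log (log N))) ≤
        ∑ d ∈ (SPlus X).filter (fun d : ℕ => X / 16 < d), max (Lhalf d) 0 ^ k :=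
  moments hε

/-- Side theorem, a consequence of `result`: the same bound for the full moment when `k` is even. -/
theorem Pool.Agent.Results.MP_ea46f5_nt.LargeMomentsPos.even_moment (ε : ℝ) (hε : 0 < ε) :
    ∃ N₀ : ℝ, ∀ X N : ℝ, 1 ≤ X → N₀ ≤ N → N ≤ X ^ (1 / 4 - ε) → ∀ k : ℕ, 1 ≤ k → Even k →
      X / (N * log X ^ 3) * exp ((2 - ε) * k * √(log N * log (log (log N)) / log (log N))) ≤
        ∑ d ∈ SPlus X, Lhalf d ^ k := by
  obtain ⟨N₀, h⟩ := Pool.Agent.Results.MP_ea46f5_nt.LargeMomentsPos.result ε hε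
  exact ⟨N₀, fun X N h1 h2 h3 k hk he => (h X N h1 h2 h3 k hk).trans (even_le X he)⟩

/-- Side theorem: a large central value. The lemma `extreme` deduces it from `moments`, which is
the statement of `result`. -/
theorem Pool.Agent.Results.MP_ea46f5_nt.LargeMomentsPos.large_value (ε : ℝ) (hε : 0 < ε) :
    ∀ᶠ X : ℝ in atTop, ∃ d ∈ SPlus X, X / 16 < d ∧
      exp ((1 - ε) * √(log X * log (log (log X)) / log (log X))) ≤ Lhalf d :=
  extreme hε
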