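import Pool.Agent.K.MP_ea46f5_nt.C38

open Pool.Agent.KMom

theorem Pool.Agent.Results.MP_ea46f5_nt.MomentBarrier.result (k : ℕ) (hk : 1 ≤ k) (δ : ℝ)
    (hδ : 0 < δ) : ∃ c : ℝ, 0 < c ∧ ∃ N₀ : ℕ, ∀ N, N₀ ≤ N →
    0 < Ex N (fun θ => Z θ ^ k) ∧ ∃ ρ₁ ρ₂ : (Fin N → ℝ) → ℝ,
      Alt N ((k - δ) * N) ρ₁ ∧ Alt N ((k - δ) * N) ρ₂ ∧
      (1 + c) * Ex N (fun θ => Z θ ^ k) ≤ Ex N (fun θ => ρ₁ θ * Z θ ^ k) ∧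
      Ex N (fun θ => ρ₂ θ * Z θ ^ k) ≤ (1 - c) * Ex N (fun θ => Z θ ^ k) :=
  main k hk δ hδ
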