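import Pool.Agent.K.MP_ea46f5_nt.C40

namespace Pool.Agent.Results.MP_ea46f5_nt.SharpBelowFour

open Pool.Agent.QM

theorem result (κ : ℝ) (h2 : 2 < κ) (h4 : κ < 4) :
    ∃ C : ℝ, ∀ X : ℝ, 3 ≤ X →
      ∑ d ∈ Fund X, ‖Lhalf d‖ ^ κ ≤ C * X * Real.log X ^ (κ * (κ + 1) / 2) :=
  main κ h2 h4

end Pool.Agent.Results.MP_ea46f5_nt.SharpBelowFour
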